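import Pool.Agent.Q49.BN.Fin
import Pool.Agent.Q49.BN.Sound

/-!
# MP_68dd99_ag: Bayesian networks whose prime ideal equals the global Markov ideal
-/

set_option autoImplicit false

namespace Pool.Agent.Results.MP_68dd99_ag.GlobalEqualsPrime

/-- If the induced subgraph on the non-sinks of a Bayesian network `G` is perfect and `G` has no
induced cycle of length greater than three, then `P_G = I_{global(G)}`. -/
theorem result {n : ℕ} (hn : n ≠ 0) (G : Q49.BN.BNet n) (hperf : G.NonSinkPerfect)
    (hcyc : G.NoLongInducedCycle) : G.P = G.globalIdeal :=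
  le_antisymm (G.P_le hn hperf hcyc) G.globalIdeal_le

end Pool.Agent.Results.MP_68dd99_ag.GlobalEqualsPrime
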